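import Pool.Agent.Helper99.LZ.Quad

/-!
# Product theorem for HH1 : rows of length one at a place with an instant (StmtR3)
-/

set_option autoImplicit false

open Finset

namespace Pool.Agent.Helper25.LZ

open Pool.Agent.Helper99.LZ

/-- sum over the pieces of the row `k` -/
theorem row_sum {T : Pr} {a b : ℤ} {m : ℤ → ℤ → ℝ} (hc : Cpl T a b m) (k : ℤ) (g : ℤ → ℝ) :
    ∑ i ∈ Icc a b, ∑ i' ∈ Icc a b, m i i' * (if i = k then g i' else 0) =
      ∑ i' ∈ Icc a b, m k i' * g i' := by
  by_cases hk : k ∈ Icc a b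
  · rw [Finset.sum_eq_single k]
    · simp
    · intro i _ hi
      simp [hi]
    · intro h
      exact absurd hk h
  · have h0 : ∀ i', m k i' = 0 := by
      intro i'
      by_contra h
      obtain ⟨h1, h2, h3⟩ := hc.supp k i' h
      exact hk (Finset.mem_Icc.2 ⟨h1, le_trans h2 h3⟩)
    have h1 : ∀ i ∈ Icc a b, ∑ i' ∈ Icc a b, m i i' * (if i = k then g i' else 0) = 0 := by
      intro i hi
      have : i ≠ k := by
        rintro rfl
        exact hk hi
      simp [this]
    rw [Finset.sum_eq_zero h1]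
    simp [h0]

/-- sum over the pieces of the column `k` -/
theorem col_sum {T : Pr} {a b : ℤ} {m : ℤ → ℤ → ℝ} (hc : Cpl T a b m) (k : ℤ) (g : ℤ → ℝ) :
    ∑ i ∈ Icc a b, ∑ i' ∈ Icc a b, m i i' * (if i' = k then g i else 0) =
      ∑ i ∈ Icc a b, m i k * g i := by
  apply Finset.sum_congr rfl
  intro i _
  by_cases hk : k ∈ Icc a b
  · rw [Finset.sum_eq_single k]
    · simp
    · intro i' _ hi
      simp [hi]
    · intro h
      exact absurd hk h
  · have h0 : m i k = 0 := by
      by_contra h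
      obtain ⟨h1, h2, h3⟩ := hc.supp i k h
      exact hk (Finset.mem_Icc.2 ⟨le_trans h1 h2, h3⟩)
    have h1 : ∀ i' ∈ Icc a b, m i i' * (if i' = k then g i else 0) = 0 := by
      intro i' hi
      have : i' ≠ k := by
        rintro rfl
        exact hk hi
      simp [this]
    rw [Finset.sum_eq_zero h1, h0]
    simp

/-- value of a sum over a row which distinguishes the instant -/
theorem row_split {T : Pr} {a b : ℤ} {m : ℤ → ℤ → ℝ} (hc : Cpl T a b m) (k : ℤ) (x y : ℝ) :
    ∑ i' ∈ Icc a b, m k i' * (if k = i' then x else y) = m k k * x + (T.L k - m k k) * y := by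
  have h1 : ∀ i' ∈ Icc a b, m k i' * (if k = i' then x else y) =
      m k i' * y + (if k = i' then m k k * (x - y) else 0) := by
    intro i' _
    by_cases h : k = i'
    · subst h
      simp
      ring
    · simp [h]
  rw [Finset.sum_congr rfl h1, Finset.sum_add_distrib, ← Finset.sum_mul, hc.row k]
  by_cases hk : k ∈ Icc a b
  · rw [Finset.sum_ite_eq]
    simp only [hk, if_true]
    ring
  · have h0 : m k k = 0 := by
      by_contra h
      obtain ⟨h1, h2, h3⟩ := hc.supp k k h
      exact hk (Finset.mem_Icc.2 ⟨h1, h3⟩)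
    rw [Finset.sum_ite_eq]
    simp only [hk, if_false, h0]
    ring

/-- value of a sum over a column which distinguishes the instant -/
theorem col_split {T : Pr} {a b : ℤ} {m : ℤ → ℤ → ℝ} (hc : Cpl T a b m) (k : ℤ) (x y : ℝ) :
    ∑ i ∈ Icc a b, m i k * (if i = k then x else y) = m k k * x + (T.R k - m k k) * y := by
  have h1 : ∀ i ∈ Icc a b, m i k * (if i = k then x else y) =
      m i k * y + (if i = k then m k k * (x - y) else 0) := by
    intro i _
    by_cases h : i = k
    · subst h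
      simp
      ring
    · simp [h]
  rw [Finset.sum_congr rfl h1, Finset.sum_add_distrib, ← Finset.sum_mul, hc.col k]
  by_cases hk : k ∈ Icc a b
  · rw [Finset.sum_ite_eq']
    simp only [hk, if_true]
    ring
  · have h0 : m k k = 0 := by
      by_contra h
      obtain ⟨h1, h2, h3⟩ := hc.supp k k h
      exact hk (Finset.mem_Icc.2 ⟨h1, h3⟩)
    rw [Finset.sum_ite_eq']
    simp only [hk, if_false, h0]
    ring

/-- differences of `Am` are row sums -/
theorem Am_succ (a b : ℤ) (m ζ : ℤ → ℤ → ℝ) (k : ℤ) :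
    ∑ i ∈ Icc a b, ∑ i' ∈ Icc a b, m i i' * (if i = k then ζ i i' else 0) =
      Am a b m ζ (k + 1) - Am a b m ζ k := by
  unfold Am
  rw [← Finset.sum_sub_distrib]
  apply Finset.sum_congr rfl
  intro i _
  rw [← Finset.sum_sub_distrib]
  apply Finset.sum_congr rfl
  intro i' _
  rcases lt_trichotomy i k with h | h | h
  · have h1 : i ≠ k := by omega
    have h2 : i < k + 1 := by omega
    simp [h1, h, h2]
  · subst h
    simp
  · have h1 : i ≠ k := by omega
    have h2 : ¬ i < k + 1 := by omega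
    have h3 : ¬ i < k := by omega
    simp [h1, h3, h2]

/-- differences of `Bm` are column sums -/
theorem Bm_succ (a b : ℤ) (m ζ : ℤ → ℤ → ℝ) (k : ℤ) :
    ∑ i ∈ Icc a b, ∑ i' ∈ Icc a b, m i i' * (if i' = k then ζ i i' else 0) =
      Bm a b m ζ k - Bm a b m ζ (k - 1) := by
  unfold Bm
  rw [← Finset.sum_sub_distrib]
  apply Finset.sum_congr rfl
  intro i _
  rw [← Finset.sum_sub_distrib]
  apply Finset.sum_congr rfl
  intro i' _
  rcases lt_trichotomy i' k with h | h | h
  · have h1 : i' ≠ k := by omega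
    have h2 : i' ≤ k - 1 := by omega
    have h3 : i' ≤ k := by omega
    simp [h1, h3, h2]
  · subst h
    simp
  · have h1 : i' ≠ k := by omega
    have h2 : ¬ i' ≤ k - 1 := by omega
    have h3 : ¬ i' ≤ k := by omega
    simp [h1, h3, h2]

/-- mass below a level: rows -/
theorem P_eq {T : Pr} {a b : ℤ} {m : ℤ → ℤ → ℝ} (hr : T.Reg a b) (hc : Cpl T a b m) (k : ℤ) :
    ∑ i ∈ Icc a b, ∑ i' ∈ Icc a b, m i i' * (if i ≤ k then 1 else 0) = T.P k := by
  have step : ∀ k : ℤ, (∑ i ∈ Icc a b, ∑ i' ∈ Icc a b, m i i' * (if i ≤ k then (1 : ℝ) else 0)) -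
      (∑ i ∈ Icc a b, ∑ i' ∈ Icc a b, m i i' * (if i ≤ k - 1 then (1 : ℝ) else 0)) =
      T.P k - T.P (k - 1) := by
    intro k
    have h1 := row_sum hc k (fun _ => (1 : ℝ))
    rw [← Finset.sum_sub_distrib]
    have h2 : ∀ i ∈ Icc a b, (∑ i' ∈ Icc a b, m i i' * (if i ≤ k then (1 : ℝ) else 0)) -
        (∑ i' ∈ Icc a b, m i i' * (if i ≤ k - 1 then (1 : ℝ) else 0)) =
        ∑ i' ∈ Icc a b, m i i' * (if i = k then (1 : ℝ) else 0) := by
      intro i _
      rw [← Finset.sum_sub_distrib]
      apply Finset.sum_congr rfl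
      intro i' _
      rcases lt_trichotomy i k with h | h | h
      · have h1 : i ≠ k := by omega
        have h2 : i ≤ k - 1 := by omega
        have h3 : i ≤ k := by omega
        simp [h1, h3, h2]
      · subst h
        simp
      · have h1 : i ≠ k := by omega
        have h2 : ¬ i ≤ k - 1 := by omega
        have h3 : ¬ i ≤ k := by omega
        simp [h1, h3, h2]
    rw [Finset.sum_congr rfl h2, h1]
    simp only [mul_one]
    exact hc.row k
  have base : ∀ k : ℤ, k < a → ∑ i ∈ Icc a b, ∑ i' ∈ Icc a b, m i i' * (if i ≤ k then (1 : ℝ) else 0)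
      = T.P k := by
    intro k hk
    rw [(hr.lo k hk).1]
    apply Finset.sum_eq_zero
    intro i hi
    apply Finset.sum_eq_zero
    intro i' _
    have : ¬ i ≤ k := by
      have := (Finset.mem_Icc.1 hi).1
      omega
    simp [this]
  have main : ∀ d : ℕ, ∑ i ∈ Icc a b, ∑ i' ∈ Icc a b, m i i' * (if i ≤ (a - 1 + d) then (1 : ℝ) else 0)
      = T.P (a - 1 + d) := by
    intro d
    induction d with
    | zero =>
      apply base
      simp
    | succ d ih =>
      have h1 := step (a - 1 + ((d + 1 : ℕ) : ℤ))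
      have h2 : a - 1 + ((d + 1 : ℕ) : ℤ) - 1 = a - 1 + (d : ℤ) := by push_cast; ring
      rw [h2] at h1
      linarith
  by_cases hk : k < a
  · exact base k hk
  · have h1 := main (k - (a - 1)).toNat
    have h2 : a - 1 + (((k - (a - 1)).toNat : ℕ) : ℤ) = k := by
      rw [Int.toNat_of_nonneg (by omega)]
      ring
    rw [h2] at h1
    exact h1

/-- mass below a level: columns -/
theorem Q_eq {T : Pr} {a b : ℤ} {m : ℤ → ℤ → ℝ} (hr : T.Reg a b) (hc : Cpl T a b m) (k : ℤ) :
    ∑ i ∈ Icc a b, ∑ i' ∈ Icc a b, m i i' * (if i' ≤ k then 1 else 0) = T.Q k := by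
  have step : ∀ k : ℤ, (∑ i ∈ Icc a b, ∑ i' ∈ Icc a b, m i i' * (if i' ≤ k then (1 : ℝ) else 0)) -
      (∑ i ∈ Icc a b, ∑ i' ∈ Icc a b, m i i' * (if i' ≤ k - 1 then (1 : ℝ) else 0)) =
      T.Q k - T.Q (k - 1) := by
    intro k
    have h1 := col_sum hc k (fun _ => (1 : ℝ))
    rw [← Finset.sum_sub_distrib]
    have h2 : ∀ i ∈ Icc a b, (∑ i' ∈ Icc a b, m i i' * (if i' ≤ k then (1 : ℝ) else 0)) -
        (∑ i' ∈ Icc a b, m i i' * (if i' ≤ k - 1 then (1 : ℝ) else 0)) =
        ∑ i' ∈ Icc a b, m i i' * (if i' = k then (1 : ℝ) else 0) := by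
      intro i _
      rw [← Finset.sum_sub_distrib]
      apply Finset.sum_congr rfl
      intro i' _
      rcases lt_trichotomy i' k with h | h | h
      · have h1 : i' ≠ k := by omega
        have h2 : i' ≤ k - 1 := by omega
        have h3 : i' ≤ k := by omega
        simp [h1, h3, h2]
      · subst h
        simp
      · have h1 : i' ≠ k := by omega
        have h2 : ¬ i' ≤ k - 1 := by omega
        have h3 : ¬ i' ≤ k := by omega
        simp [h1, h3, h2]
    rw [Finset.sum_congr rfl h2, h1]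
    simp only [mul_one]
    exact hc.col k
  have base : ∀ k : ℤ, k < a → ∑ i ∈ Icc a b, ∑ i' ∈ Icc a b, m i i' * (if i' ≤ k then (1 : ℝ) else 0)
      = T.Q k := by
    intro k hk
    rw [(hr.lo k hk).2]
    apply Finset.sum_eq_zero
    intro i _
    apply Finset.sum_eq_zero
    intro i' hi
    have : ¬ i' ≤ k := by
      have := (Finset.mem_Icc.1 hi).1
      omega
    simp [this]
  have main : ∀ d : ℕ, ∑ i ∈ Icc a b, ∑ i' ∈ Icc a b, m i i' * (if i' ≤ (a - 1 + d) then (1 : ℝ) else 0)
      = T.Q (a - 1 + d) := by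
    intro d
    induction d with
    | zero =>
      apply base
      simp
    | succ d ih =>
      have h1 := step (a - 1 + ((d + 1 : ℕ) : ℤ))
      have h2 : a - 1 + ((d + 1 : ℕ) : ℤ) - 1 = a - 1 + (d : ℤ) := by push_cast; ring
      rw [h2] at h1
      linarith
  by_cases hk : k < a
  · exact base k hk
  · have h1 := main (k - (a - 1)).toNat
    have h2 : a - 1 + (((k - (a - 1)).toNat : ℕ) : ℤ) = k := by
      rw [Int.toNat_of_nonneg (by omega)]
      ring
    rw [h2] at h1
    exact h1

/-- no piece passes over a place with an instant -/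
theorem no_pass {T : Pr} {a b : ℤ} {m : ℤ → ℤ → ℝ} (hr : T.Reg a b) (hc : Cpl T a b m) {k : ℤ}
    (hk : T.h k < 0) (i i' : ℤ) (hi : i < k) (hi' : k < i') : m i i' = 0 := by
  have hle : ∀ i i', m i i' ≠ 0 → i ≤ i' := fun i i' h => (hc.supp i i' h).2.1
  have hz : ∑ i ∈ Icc a b, ∑ i' ∈ Icc a b, m i i' * (if i < k ∧ k < i' then (1 : ℝ) else 0) = 0 := by
    have h1 := P_eq hr hc (k - 1)
    have h2 := Q_eq hr hc k
    have h3 : ∑ i ∈ Icc a b, ∑ i' ∈ Icc a b, m i i' * (if i = k then (if k = i' then (1 : ℝ) else 0)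
        else 0) = m k k := by
      rw [row_sum hc k (fun i' => if k = i' then (1 : ℝ) else 0), row_split hc k 1 0]
      ring
    have h4 : ∀ i ∈ Icc a b, ∀ i' ∈ Icc a b, m i i' * (if i < k ∧ k < i' then (1 : ℝ) else 0) =
        m i i' * (if i ≤ k - 1 then (1 : ℝ) else 0) - m i i' * (if i' ≤ k then (1 : ℝ) else 0)
        + m i i' * (if i = k then (if k = i' then (1 : ℝ) else 0) else 0) := by
      intro i _ i' _
      by_cases hm : m i i' = 0
      · simp [hm]
      · have hii := hle i i' hm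
        rcases lt_trichotomy i k with h | h | h
        · have e1 : i ≤ k - 1 := by omega
          have e2 : i ≠ k := by omega
          by_cases e3 : i' ≤ k
          · have e4 : ¬ k < i' := by omega
            simp [e1, e2, e3, e4]
          · have e4 : k < i' := by omega
            simp [h, e1, e2, e3, e4]
        · subst h
          by_cases e3 : i' ≤ i
          · have e4 : i = i' := by omega
            subst e4
            simp
          · have e4 : i ≠ i' := by omega
            simp [e3, e4]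
        · have e1 : ¬ i ≤ k - 1 := by omega
          have e2 : i ≠ k := by omega
          have e3 : ¬ i < k := by omega
          have e4 : ¬ i' ≤ k := by omega
          simp [e1, e2, e3, e4]
    rw [Finset.sum_congr rfl (fun i hi => Finset.sum_congr rfl (h4 i hi))]
    simp only [Finset.sum_add_distrib, Finset.sum_sub_distrib]
    rw [h1, h2, h3, hc.inst k]
    unfold Pr.al
    have h5 : T.h k = T.P (k - 1) - T.Q k := rfl
    rw [max_eq_right (by linarith)]
    linarith
  by_contra hne
  obtain ⟨q1, q2, q3⟩ := hc.supp i i' hne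
  have nn1 : ∀ i ∈ Icc a b, 0 ≤ ∑ i' ∈ Icc a b, m i i' * (if i < k ∧ k < i' then (1 : ℝ) else 0) := by
    intro i _
    apply Finset.sum_nonneg
    intro i' _
    apply mul_nonneg (hc.nn i i')
    split_ifs <;> norm_num
  have z1 := (Finset.sum_eq_zero_iff_of_nonneg nn1).1 hz i (Finset.mem_Icc.2 ⟨q1, le_trans q2 q3⟩)
  have nn2 : ∀ i' ∈ Icc a b, 0 ≤ m i i' * (if i < k ∧ k < i' then (1 : ℝ) else 0) := by
    intro i' _
    apply mul_nonneg (hc.nn i i')
    split_ifs <;> norm_num
  have z2 := (Finset.sum_eq_zero_iff_of_nonneg nn2).1 z1 i' (Finset.mem_Icc.2 ⟨le_trans q1 q2, q3⟩)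
  simp only [hi, hi', and_self, if_true, mul_one] at z2
  exact hne z2

/-- the window inequality -/
theorem win {T : Pr} {k : ℤ} (hop : T.OP3 (k - 1) k 0) (ξ ν : ℝ)
    (hort : T.F k * ξ = T.F (k - 1) * ν) (hF : 0 < T.F k ∨ 0 < T.F (k - 1)) :
    0 ≤ -T.H (k + 1) k * ξ ^ 2 + 2 * T.H k (k - 1) * ξ * ν - T.H (k - 1) (k - 2) * ν ^ 2 := by
  by_contra hcon
  push Not at hcon
  have e1 : k - 1 + 2 = k + 1 := by ring
  have e2 : k - 1 + 1 = k := by ring
  have key : ∀ x' y' w' : ℝ,
      (T.H (k + 1) k * ξ ^ 2 - 2 * T.H k (k - 1) * ξ * ν + T.H (k - 1) (k - 2) * ν ^ 2) *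
        T.W3 (k - 1) k 0 x' y' w' x' y' w' ≤ (T.W3 (k - 1) k 0 ξ (-ν) 0 x' y' w') ^ 2 := by
    intro x' y' w'
    have h := hop ξ (-ν) 0 x' y' w'
    have e3 : T.W3 (k - 1) k 0 ξ (-ν) 0 ξ (-ν) 0 =
        T.H (k + 1) k * ξ ^ 2 - 2 * T.H k (k - 1) * ξ * ν + T.H (k - 1) (k - 2) * ν ^ 2 := by
      unfold Pr.W3
      rw [e1, e2]
      ring
    rw [e3] at h
    apply h
    linarith
  set U := T.H (k + 1) k * ξ ^ 2 - 2 * T.H k (k - 1) * ξ * ν + T.H (k - 1) (k - 2) * ν ^ 2 with hU
  have hUpos : 0 < U := by rw [hU]; linarith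
  have hFk : T.F k = T.H k k := rfl
  have hFk1 : T.F (k - 1) = T.H (k - 1) (k - 1) := rfl
  rcases hF with h | h
  · -- direction (1, 0, t)
    set c := T.H (k + 1) k with hc
    set d := ξ * T.H (k + 1) k - ν * T.H k (k - 1) with hd
    have h2 := key 1 0 ((d ^ 2 / U + 1 - c) / (2 * T.F k))
    have e3 : T.W3 (k - 1) k 0 1 0 ((d ^ 2 / U + 1 - c) / (2 * T.F k)) 1 0
        ((d ^ 2 / U + 1 - c) / (2 * T.F k)) = d ^ 2 / U + 1 := by
      unfold Pr.W3
      rw [e1, e2, ← hFk, ← hc]
      field_simp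
      ring
    have e4 : T.W3 (k - 1) k 0 ξ (-ν) 0 1 0 ((d ^ 2 / U + 1 - c) / (2 * T.F k)) = d := by
      unfold Pr.W3
      rw [e1, e2, ← hFk, ← hFk1, hd]
      linear_combination ((d ^ 2 / U + 1 - c) / (2 * T.F k)) * hort
    rw [e3, e4] at h2
    have e5 : U * (d ^ 2 / U + 1) = d ^ 2 + U := by field_simp
    rw [e5] at h2
    linarith
  · set c := T.H (k - 1) (k - 2) with hc
    set d := ξ * T.H k (k - 1) - ν * T.H (k - 1) (k - 2) with hd
    have h2 := key 0 1 ((d ^ 2 / U + 1 - c) / (2 * T.F (k - 1)))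
    have e3 : T.W3 (k - 1) k 0 0 1 ((d ^ 2 / U + 1 - c) / (2 * T.F (k - 1))) 0 1
        ((d ^ 2 / U + 1 - c) / (2 * T.F (k - 1))) = d ^ 2 / U + 1 := by
      unfold Pr.W3
      rw [e1, e2, ← hFk1, ← hc]
      field_simp
      ring
    have e4 : T.W3 (k - 1) k 0 ξ (-ν) 0 0 1 ((d ^ 2 / U + 1 - c) / (2 * T.F (k - 1))) = d := by
      unfold Pr.W3
      rw [e1, e2, ← hFk, ← hFk1, hd]
      linear_combination ((d ^ 2 / U + 1 - c) / (2 * T.F (k - 1))) * hort
    rw [e3, e4] at h2
    have e5 : U * (d ^ 2 / U + 1) = d ^ 2 + U := by field_simp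
    rw [e5] at h2
    linarith

/-- StmtR3 -/
theorem r3 (hK : StmtKAP) : StmtR3 := by
  intro T n a b m opt ζ xN xI nN nI H j hneg
  have hc := H.cpl
  have hr := H.hh.toReg
  have hp := H.par
  have hle : ∀ i i', m i i' ≠ 0 → i ≤ i' := fun i i' h => (hc.supp i i' h).2.1
  have hoc : ∀ i, m i i ≠ 0 → oc ζ xN xI nN nI i i = 0 := by
    intro i hi
    rw [hc.inst i] at hi
    have hh : T.h i < 0 := by
      by_contra h
      push Not at h
      apply hi
      unfold Pr.al
      rw [max_eq_left (by linarith)]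
    have := hp.om i hh
    unfold oc xc nc
    simp only [if_true]
    linarith
  rw [hK n a b m ζ xN xI nN nI j (j + 1) (by omega) hle hoc]
  obtain ⟨k, hkd⟩ : ∃ k, k = n - 1 - j := ⟨_, rfl⟩
  have d1 : n - j = k + 1 := by omega
  have d2 : n - 1 - j = k := by omega
  have d3 : n - (j + 1) - 1 = k - 1 := by omega
  have d4 : n - (j + 1) = k := by omega
  have d5 : n - 2 - j = k - 1 := by omega
  rw [d1, d2, d3, d4, d5]
  rw [d2] at hneg
  have hnp := fun i i' => no_pass hr hc hneg i i'
  -- names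
  obtain ⟨ξ, hξ⟩ : ∃ ξ, ξ = xN k := ⟨_, rfl⟩
  obtain ⟨ν, hν⟩ : ∃ ν, ν = nN k := ⟨_, rfl⟩
  obtain ⟨z, hz⟩ : ∃ z, z = ζ k k := ⟨_, rfl⟩
  -- pointwise identity
  have point : ∀ i i' : ℤ, m i i' *
      ((if i = k + 1 then (xc xN xI i i') ^ 2 else 0)
      - (if i = k then (xc xN xI i i') ^ 2 + 2 * xc xN xI i i' * ζ i i' else 0)
      + (if i' = k - 1 then (nc nN nI i i') ^ 2 else 0)
      - (if i' = k then (nc nN nI i i') ^ 2 - 2 * nc nN nI i i' * ζ i i' else 0)
      + ((if i ≤ k - 1 then 1 else 0) - (if i' ≤ k then 1 else 0)) * (ζ i i') ^ 2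
      + (if j = j + 1 ∧ i' = i + 1 ∧ i' = k + 1 then (oc ζ xN xI nN nI i i') ^ 2 else 0)) =
      m i i' * (if i = k + 1 then (xc xN xI i i' - ξ) ^ 2 else 0)
      + m i i' * (if i' = k - 1 then (nc nN nI i i' - ν) ^ 2 else 0)
      + 2 * ξ * (m i i' * (if i = k + 1 then (if k + 1 = i' then xI (k + 1) else xN (k + 1)) else 0))
      - ξ ^ 2 * (m i i' * (if i = k + 1 then 1 else 0))
      + 2 * ν * (m i i' * (if i' = k - 1 then (if i = k - 1 then nI (k - 1) else nN (k - 1)) else 0))
      - ν ^ 2 * (m i i' * (if i' = k - 1 then 1 else 0))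
      - ξ ^ 2 * (m i i' * (if i = k then 1 else 0))
      - 2 * ξ * (m i i' * (if i = k then ζ i i' else 0))
      - ν ^ 2 * (m i i' * (if i' = k then 1 else 0))
      + 2 * ν * (m i i' * (if i' = k then ζ i i' else 0))
      - ((xI k ^ 2 + 2 * xI k * z - ξ ^ 2 - 2 * ξ * z) + (nI k ^ 2 - 2 * nI k * z - ν ^ 2 + 2 * ν * z)
          + z ^ 2) * (m i i' * (if i = k then (if k = i' then 1 else 0) else 0)) := by
    intro i i'
    by_cases hm : m i i' = 0
    · rw [hm]; ring
    have hii := hle i i' hm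
    have hj : ¬ (j = j + 1 ∧ i' = i + 1 ∧ i' = k + 1) := by
      rintro ⟨h, _⟩
      omega
    rw [if_neg hj]
    rcases lt_trichotomy i k with h | h | h
    · -- i < k : then i' ≤ k
      have h' : i' ≤ k := by
        by_contra h'
        push Not at h'
        exact hm (hnp i i' h h')
      have e1 : i ≠ k + 1 := by omega
      have e2 : i ≠ k := by omega
      have e3 : i ≤ k - 1 := by omega
      rw [if_neg e1, if_neg e1, if_neg e1, if_neg e1, if_neg e2, if_neg e2, if_neg e2, if_neg e2,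
        if_pos e3, if_pos h']
      by_cases e4 : i' = k
      · have e5 : i' ≠ k - 1 := by omega
        rw [if_neg e5, if_neg e5, if_neg e5, if_neg e5, if_pos e4, if_pos e4, if_pos e4]
        have e6 : nc nN nI i i' = ν := by
          unfold nc
          rw [if_neg (by omega), e4, hν]
        rw [e6]
        ring
      · rw [if_neg e4, if_neg e4, if_neg e4]
        by_cases e5 : i' = k - 1
        · rw [if_pos e5, if_pos e5, if_pos e5, if_pos e5]
          have e6 : nc nN nI i i' = if i = k - 1 then nI (k - 1) else nN (k - 1) := by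
            unfold nc
            rw [e5]
          rw [e6]
          ring
        · rw [if_neg e5, if_neg e5, if_neg e5, if_neg e5]
          ring
    · -- i = k
      have e1 : i ≠ k + 1 := by omega
      have e3 : ¬ i ≤ k - 1 := by omega
      have e5 : i' ≠ k - 1 := by omega
      rw [if_neg e1, if_neg e1, if_neg e1, if_neg e1, if_pos h, if_pos h, if_pos h, if_pos h,
        if_neg e3, if_neg e5, if_neg e5, if_neg e5, if_neg e5]
      by_cases e4 : i' = k
      · have e6 : i' ≤ k := by omega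
        have e7 : xc xN xI i i' = xI k := by
          unfold xc
          rw [if_pos (by omega), h]
        have e8 : nc nN nI i i' = nI k := by
          unfold nc
          rw [if_pos (by omega), e4]
        have e9 : ζ i i' = z := by rw [h, e4, hz]
        rw [if_pos e4, if_pos e4, if_pos e4, if_pos e6, if_pos e4.symm, e7, e8, e9]
        ring
      · have e6 : ¬ i' ≤ k := by omega
        have e7 : xc xN xI i i' = ξ := by
          unfold xc
          rw [if_neg (by omega), h, hξ]
        have e8 : ¬ k = i' := by omega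
        rw [if_neg e4, if_neg e4, if_neg e4, if_neg e6, if_neg e8, e7]
        ring
    · -- k < i
      have e2 : i ≠ k := by omega
      have e3 : ¬ i ≤ k - 1 := by omega
      have e4 : i' ≠ k := by omega
      have e5 : i' ≠ k - 1 := by omega
      have e6 : ¬ i' ≤ k := by omega
      rw [if_neg e2, if_neg e2, if_neg e2, if_neg e2, if_neg e3, if_neg e4, if_neg e4, if_neg e4,
        if_neg e5, if_neg e5, if_neg e5, if_neg e5, if_neg e6]
      by_cases e1 : i = k + 1
      · rw [if_pos e1, if_pos e1, if_pos e1, if_pos e1]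
        have e7 : xc xN xI i i' = if k + 1 = i' then xI (k + 1) else xN (k + 1) := by
          unfold xc
          rw [e1]
        rw [e7]
        ring
      · rw [if_neg e1, if_neg e1, if_neg e1, if_neg e1]
        ring
  rw [Finset.sum_congr rfl (fun i _ => Finset.sum_congr rfl (fun i' _ => point i i'))]
  simp only [Finset.sum_add_distrib, Finset.sum_sub_distrib, ← Finset.mul_sum]
  -- the sums
  have s1 := row_sum hc (k + 1) (fun i' => if k + 1 = i' then xI (k + 1) else xN (k + 1))
  rw [row_split hc (k + 1) (xI (k + 1)) (xN (k + 1)), hp.blkA (k + 1)] at s1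
  have s2 : ∀ l : ℤ, ∑ i ∈ Icc a b, ∑ i' ∈ Icc a b, m i i' * (if i = l then (1 : ℝ) else 0) = T.L l := by
    intro l
    have h := row_sum hc l (fun _ => (1 : ℝ))
    simp only [mul_one] at h
    rw [hc.row l] at h
    exact h
  have s3 := col_sum hc (k - 1) (fun i => if i = k - 1 then nI (k - 1) else nN (k - 1))
  rw [col_split hc (k - 1) (nI (k - 1)) (nN (k - 1)), hp.blkB (k - 1)] at s3
  have s4 : ∀ l : ℤ, ∑ i ∈ Icc a b, ∑ i' ∈ Icc a b, m i i' * (if i' = l then (1 : ℝ) else 0) = T.R l := by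
    intro l
    have h := col_sum hc l (fun _ => (1 : ℝ))
    simp only [mul_one] at h
    rw [hc.col l] at h
    exact h
  have s5 := Am_succ a b m ζ k
  have s6 := Bm_succ a b m ζ k
  have s7 : ∑ i ∈ Icc a b, ∑ i' ∈ Icc a b, m i i' * (if i = k then (if k = i' then (1 : ℝ) else 0)
      else 0) = m k k := by
    rw [row_sum hc k (fun i' => if k = i' then (1 : ℝ) else 0), row_split hc k 1 0]
    ring
  have s8 : Bm a b m ζ k = Am a b m ζ k + m k k * z := by
    have h1 : Bm a b m ζ k - Am a b m ζ k =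
        ∑ i ∈ Icc a b, ∑ i' ∈ Icc a b, z * (m i i' * (if i = k then (if k = i' then (1 : ℝ) else 0)
      else 0)) := by
      unfold Am Bm
      rw [← Finset.sum_sub_distrib]
      apply Finset.sum_congr rfl
      intro i _
      rw [← Finset.sum_sub_distrib]
      apply Finset.sum_congr rfl
      intro i' _
      by_cases hm : m i i' = 0
      · simp [hm]
      have hii := hle i i' hm
      rcases lt_trichotomy i k with h | h | h
      · have h' : i' ≤ k := by
          by_contra h'
          push Not at h'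
          exact hm (hnp i i' h h')
        have e2 : i ≠ k := by omega
        rw [if_pos h', if_pos h, if_neg e2]
        ring
      · have e2 : ¬ i < k := by omega
        rw [if_neg e2, if_pos h]
        by_cases e4 : i' = k
        · have e9 : ζ i i' = z := by rw [h, e4, hz]
          rw [if_pos (by omega), if_pos e4.symm, e9]
          ring
        · rw [if_neg (by omega), if_neg (by omega)]
          ring
      · rw [if_neg (by omega), if_neg (by omega), if_neg (by omega)]
        ring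
    simp only [← Finset.mul_sum] at h1
    rw [s7] at h1
    linarith
  rw [s1, s2, s2, s3, s4, s4, s5, s6, s7]
  have b1 := hp.blkA k
  have b2 := hp.blkB k
  rw [← hξ] at b1
  rw [← hν] at b2
  have hz2 : z = nI k - xI k := by rw [hz]; exact hp.om k hneg
  have hal : m k k = -(T.P (k - 1) - T.Q k) := by
    rw [hc.inst k]
    unfold Pr.al
    rw [max_eq_right (by linarith)]
    rfl
  have tie : (xI k - ξ) * (nI k - ν) = 0 := by
    by_cases ho : opt k
    · have h1 := hp.tieX k (fun h => h.2 ho)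
      rw [hξ, h1]
      ring
    · have h1 := hp.tieN k (fun h => ho h.2)
      rw [hν, h1]
      ring
  have q1 : 0 ≤ ∑ i ∈ Icc a b, ∑ i' ∈ Icc a b, m i i' *
      (if i = k + 1 then (xc xN xI i i' - ξ) ^ 2 else 0) := by
    apply Finset.sum_nonneg
    intro i _
    apply Finset.sum_nonneg
    intro i' _
    apply mul_nonneg (hc.nn i i')
    split_ifs
    · positivity
    · exact le_refl _
  have q2 : 0 ≤ ∑ i ∈ Icc a b, ∑ i' ∈ Icc a b, m i i' *
      (if i' = k - 1 then (nc nN nI i i' - ν) ^ 2 else 0) := by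
    apply Finset.sum_nonneg
    intro i _
    apply Finset.sum_nonneg
    intro i' _
    apply mul_nonneg (hc.nn i i')
    split_ifs
    · positivity
    · exact le_refl _
  have hF : 0 < T.F k ∨ 0 < T.F (k - 1) := by
    have ha : a ≤ k := by
      by_contra h
      push Not at h
      have h1 := (hr.lo (k - 1) (by omega)).1
      have h2 := (hr.lo k h).2
      have h3 : T.h k = T.P (k - 1) - T.Q k := rfl
      rw [h1, h2] at h3
      linarith
    have hb : k ≤ b := by
      by_contra h
      push Not at h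
      have h1 := (hr.hi (k - 1) (by omega)).1
      have h2 := (hr.hi k (by omega)).2
      have h3 : T.h k = T.P (k - 1) - T.Q k := rfl
      rw [h1, h2] at h3
      linarith
    rcases lt_or_eq_of_le hb with h | h
    · exact Or.inl (hr.Fpos k ha h)
    · refine Or.inr (hr.Fpos (k - 1) ?_ ?_)
      · have := hr.ab
        omega
      · omega
  have hop : T.OP3 (k - 1) k 0 := by
    have h := H.hh.one k
    have h2 : T.hp k = 0 := by
      unfold Pr.hp
      exact max_eq_left (le_of_lt hneg)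
    rw [h2] at h
    exact h
  have hort : T.F k * ξ = T.F (k - 1) * ν := by
    rw [hξ, hν]
    exact hp.ort k hneg
  have hw := win hop ξ ν hort hF
  have g1 : T.H (k + 1) k = T.L (k + 1) + T.L k - m k k := by
    rw [hal]
    unfold Pr.H Pr.L
    rw [show k + 1 - 1 = k by ring]
    ring
  have g2 : T.H k (k - 1) = T.R k + T.L k - m k k := by
    rw [hal]
    unfold Pr.H Pr.L Pr.R
    ring
  have g3 : T.H (k - 1) (k - 2) = T.R k + T.R (k - 1) - m k k := by
    rw [hal]
    unfold Pr.H Pr.R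
    rw [show k - 1 - 1 = k - 2 by ring]
    ring
  rw [g1, g2, g3] at hw
  have fin : (∑ i ∈ Icc a b, ∑ i' ∈ Icc a b, m i i' *
      (if i = k + 1 then (xc xN xI i i' - ξ) ^ 2 else 0)) +
      (∑ i ∈ Icc a b, ∑ i' ∈ Icc a b, m i i' *
      (if i' = k - 1 then (nc nN nI i i' - ν) ^ 2 else 0)) +
      2 * ξ * Am a b m ζ (k + 1) - ξ ^ 2 * T.L (k + 1) + 2 * ν * Bm a b m ζ (k - 1)
      - ν ^ 2 * T.R (k - 1) - ξ ^ 2 * T.L k - 2 * ξ * (Am a b m ζ (k + 1) - Am a b m ζ k)
      - ν ^ 2 * T.R k + 2 * ν * (Bm a b m ζ k - Bm a b m ζ (k - 1))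
      - ((xI k ^ 2 + 2 * xI k * z - ξ ^ 2 - 2 * ξ * z) + (nI k ^ 2 - 2 * nI k * z - ν ^ 2 + 2 * ν * z)
          + z ^ 2) * m k k =
      (∑ i ∈ Icc a b, ∑ i' ∈ Icc a b, m i i' *
      (if i = k + 1 then (xc xN xI i i' - ξ) ^ 2 else 0)) +
      (∑ i ∈ Icc a b, ∑ i' ∈ Icc a b, m i i' *
      (if i' = k - 1 then (nc nN nI i i' - ν) ^ 2 else 0)) +
      (-(T.L (k + 1) + T.L k - m k k) * ξ ^ 2 + 2 * (T.R k + T.L k - m k k) * ξ * ν
        - (T.R k + T.R (k - 1) - m k k) * ν ^ 2) - 2 * m k k * ((xI k - ξ) * (nI k - ν)) := by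
    rw [hz2] at s8
    rw [hz2]
    linear_combination (-2 * ν) * b1 + (-2 * ξ) * b2 - 2 * (ξ - ν) * s8
  rw [fin, tie]
  linarith

end Pool.Agent.Helper25.LZ
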